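import Mathlib

/-!
# Relations between polynomial functions on a set whose functions of bounded degree span spaces of
small dimension
-/

set_option autoImplicit false

namespace Pool.Agent.R870.NY

open MvPolynomial

variable {s : ℕ} {T : Type}

/-- functions on `T` given by polynomials of degree at most `L` in each of the coordinate
functions `x i` -/
noncomputable def P (x : Fin s → T → ℂ) (L : ℕ) : Submodule ℂ (T → ℂ) :=
  Submodule.span ℂ {f | ∃ e : Fin s → ℕ, (∀ l, e l ≤ L) ∧ f = ∏ l, x l ^ e l}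

variable {x : Fin s → T → ℂ}

theorem mon_mem_P {L : ℕ} {e : Fin s → ℕ} (he : ∀ l, e l ≤ L) :
    (∏ l, x l ^ e l) ∈ P x L := Submodule.subset_span ⟨e, he, rfl⟩

theorem one_mem_P (L : ℕ) : (1 : T → ℂ) ∈ P x L := by
  have := mon_mem_P (x := x) (L := L) (e := 0) (by simp)
  simpa using this

theorem X_mem_P (j : Fin s) {L : ℕ} (hL : 1 ≤ L) : x j ∈ P x L := by
  classical
  have := mon_mem_P (x := x) (L := L) (e := Pi.single j 1) (by
    intro l
    by_cases h : l = j
    · subst h; simpa using hL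
    · rw [Pi.single_eq_of_ne h]; exact Nat.zero_le _)
  rw [Finset.prod_eq_single j] at this
  · simpa using this
  · intro l _ hl
    rw [Pi.single_eq_of_ne hl, pow_zero]
  · intro h
    exact absurd (Finset.mem_univ j) h

theorem P_mul {L L' : ℕ} {f g : T → ℂ}
    (hf : f ∈ P x L) (hg : g ∈ P x L') : f * g ∈ P x (L + L') := by
  induction hf using Submodule.span_induction with
  | mem f hf =>
    obtain ⟨e, he, rfl⟩ := hf
    induction hg using Submodule.span_induction with
    | mem g hg =>
      obtain ⟨e', he', rfl⟩ := hg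
      have h1 : (∏ l, x l ^ e l) * (∏ l, x l ^ e' l) = ∏ l, x l ^ (e + e') l := by
        rw [← Finset.prod_mul_distrib]
        exact Finset.prod_congr rfl fun l _ => (pow_add _ _ _).symm
      rw [h1]
      exact mon_mem_P fun l => add_le_add (he l) (he' l)
    | zero => rw [mul_zero]; exact Submodule.zero_mem _
    | add a b _ _ ha hb => rw [mul_add]; exact Submodule.add_mem _ ha hb
    | smul c a _ ha => rw [mul_smul_comm]; exact Submodule.smul_mem _ _ ha
  | zero => rw [zero_mul]; exact Submodule.zero_mem _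
  | add a b _ _ ha hb => rw [add_mul]; exact Submodule.add_mem _ ha hb
  | smul c a _ ha => rw [smul_mul_assoc]; exact Submodule.smul_mem _ _ ha

theorem P_pow {L : ℕ} {f : T → ℂ}
    (hf : f ∈ P x L) (m : ℕ) : f ^ m ∈ P x (m * L) := by
  induction m with
  | zero => rw [pow_zero]; exact one_mem_P _
  | succ m ih =>
    rw [pow_succ, Nat.succ_mul]
    exact P_mul ih hf

theorem P_mono {L L' : ℕ} (h : L ≤ L') : P x L ≤ P x L' := by
  refine Submodule.span_mono ?_
  rintro f ⟨e, he, rfl⟩
  exact ⟨e, fun l => (he l).trans h, rfl⟩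

theorem P_prod {ι : Type} (S : Finset ι)
    (F : ι → T → ℂ) (L : ι → ℕ) (hF : ∀ i ∈ S, F i ∈ P x (L i)) :
    ∏ i ∈ S, F i ∈ P x (∑ i ∈ S, L i) := by
  classical
  induction S using Finset.induction_on with
  | empty => rw [Finset.prod_empty]; exact one_mem_P _
  | insert a S ha ih =>
    rw [Finset.prod_insert ha, Finset.sum_insert ha]
    exact P_mul (hF a (Finset.mem_insert_self a S))
      (ih fun i hi => hF i (Finset.mem_insert_of_mem hi))

/-- the growth condition: the functions of degree at most `L` span a space of dimension at most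
`B L ^ m` -/
def Growth (x : Fin s → T → ℂ) (B m : ℕ) : Prop :=
  ∀ L : ℕ, 1 ≤ L → Module.Finite ℂ (P x L) ∧ Module.finrank ℂ (P x L) ≤ B * L ^ m

/-- the degree bound -/
def DD (B s k e m : ℕ) : ℕ := B * (k * e + s + 1) ^ m

theorem exists_rel {k B m e : ℕ} (hB : 1 ≤ B) (hgr : Growth x B m)
    (g : Fin k → T → ℂ) (hg : ∀ i, g i ∈ P x e) (J : Finset (Fin s))
    (hJ : m + 1 ≤ k + J.card) :
    ∃ p : (Fin k → Fin (DD B s k e m + 1)) × (J → Fin (DD B s k e m + 1)) → ℂ,
      (∃ z, p z ≠ 0) ∧ ∀ y : T, ∑ z, p z * ((∏ i, g i y ^ (z.1 i : ℕ)) *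
        ∏ j : J, x j y ^ (z.2 j : ℕ)) = 0 := by
  classical
  set D := DD B s k e m with hD
  let F : (Fin k → Fin (D + 1)) × (J → Fin (D + 1)) → T → ℂ := fun z =>
    (∏ i, g i ^ (z.1 i : ℕ)) * ∏ j : J, x j ^ (z.2 j : ℕ)
  set L := (k * e + s + 1) * D with hL
  have hD1 : 1 ≤ D := Nat.mul_pos hB (pow_pos (by omega) _)
  have hL1 : 1 ≤ L := Nat.mul_pos (by omega) hD1
  have hF : ∀ z, F z ∈ P x L := by
    intro z
    have h1 : ∏ i, g i ^ (z.1 i : ℕ) ∈ P x (∑ i : Fin k, (z.1 i : ℕ) * e) :=
      P_prod Finset.univ _ _ fun i _ => P_pow (hg i) _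
    have h2 : ∏ j : J, x j ^ (z.2 j : ℕ) ∈ P x (∑ j : J, (z.2 j : ℕ) * 1) :=
      P_prod Finset.univ _ _ fun j _ => P_pow (X_mem_P _ le_rfl) _
    refine P_mono ?_ (P_mul h1 h2)
    have h4 : ∑ i : Fin k, (z.1 i : ℕ) * e ≤ k * (D * e) := by
      calc ∑ i : Fin k, (z.1 i : ℕ) * e ≤ ∑ _i : Fin k, D * e :=
            Finset.sum_le_sum fun i _ => Nat.mul_le_mul_right _ (Nat.lt_succ_iff.1 (z.1 i).2)
        _ = k * (D * e) := by simp
    have h5 : ∑ j : J, (z.2 j : ℕ) * 1 ≤ s * D := by
      calc ∑ j : J, (z.2 j : ℕ) * 1 ≤ ∑ _j : J, D := by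
            refine Finset.sum_le_sum fun j _ => ?_
            rw [mul_one]
            exact Nat.lt_succ_iff.1 (z.2 j).2
        _ = J.card * D := by simp
        _ ≤ s * D := Nat.mul_le_mul_right _ (by simpa using Finset.card_le_univ J)
    calc _ ≤ k * (D * e) + s * D := add_le_add h4 h5
      _ ≤ L := by rw [hL]; nlinarith
  obtain ⟨hmf, hfin⟩ := hgr L hL1
  have hnli : ¬ LinearIndependent ℂ F := by
    intro hli
    have hli' : LinearIndependent ℂ (fun z => (⟨F z, hF z⟩ : P x L)) :=
      LinearIndependent.of_comp (P x L).subtype hli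
    have h1 := hli'.fintype_card_le_finrank
    rw [Fintype.card_prod, Fintype.card_fun, Fintype.card_fun, Fintype.card_fin,
      Fintype.card_fin, Fintype.card_coe, ← pow_add] at h1
    have h2 : (D + 1) ^ (m + 1) ≤ (D + 1) ^ (k + J.card) :=
      Nat.pow_le_pow_right (by omega) hJ
    have h3 : (D + 1) ^ (m + 1) ≤ B * L ^ m := (h2.trans h1).trans hfin
    have h6 : B * L ^ m = D * D ^ m := by
      rw [hL, mul_pow, ← mul_assoc]
      congr 1
    have h7 : D * D ^ m < (D + 1) ^ (m + 1) := by
      rw [← pow_succ']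
      exact Nat.pow_lt_pow_left (by omega) (by omega)
    omega
  rw [Fintype.not_linearIndependent_iff] at hnli
  obtain ⟨p, hp, z, hz⟩ := hnli
  refine ⟨p, ⟨z, hz⟩, fun y => ?_⟩
  have h1 := congrFun hp y
  rw [Finset.sum_apply] at h1
  simpa [F, Finset.prod_apply] using h1

/-- The condition on the constant values of the functions `g i` on a subset on which the
coordinates in `J` are independent. -/
theorem exists_poly {k B m e : ℕ} (hB : 1 ≤ B) (hgr : Growth x B m)
    (g : Fin k → T → ℂ) (hg : ∀ i, g i ∈ P x e) (J : Finset (Fin s))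
    (hJ : m + 1 ≤ k + J.card) :
    ∃ q : MvPolynomial (Fin k) ℂ, q ≠ 0 ∧ q.totalDegree ≤ k * DD B s k e m ∧
      ∀ (W : Set T) (c : Fin k → ℂ), (∀ y ∈ W, ∀ i, g i y = c i) →
        (∀ R : MvPolynomial J ℂ, (∀ y ∈ W, eval (fun j : J => x (j : Fin s) y) R = 0) → R = 0) →
        eval c q = 0 := by
  classical
  have hrel := exists_rel hB hgr g hg J hJ
  obtain ⟨D, hD⟩ : ∃ D, D = DD B s k e m := ⟨_, rfl⟩
  rw [← hD] at hrel ⊢
  obtain ⟨p, ⟨⟨u0, w0⟩, hp0⟩, hp⟩ := hrel
  let mo : (Fin k → Fin (D + 1)) → (Fin k →₀ ℕ) := fun u => Finsupp.equivFunOnFinite.symm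
    fun i => (u i : ℕ)
  have hmo : Function.Injective mo := by
    intro u u' h
    funext i
    have := DFunLike.congr_fun h i
    exact Fin.ext this
  let q : MvPolynomial (Fin k) ℂ := ∑ u, monomial (mo u) (p (u, w0))
  have hqc : ∀ u, coeff (mo u) q = p (u, w0) := by
    intro u
    rw [coeff_sum, Finset.sum_eq_single u]
    · rw [coeff_monomial, if_pos rfl]
    · intro u' _ h
      rw [coeff_monomial, if_neg fun h' => h (hmo h')]
    · intro h
      exact absurd (Finset.mem_univ u) h
  have hev : ∀ c : Fin k → ℂ, eval c q = ∑ u, p (u, w0) * ∏ i, c i ^ (u i : ℕ) := by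
    intro c
    rw [map_sum]
    refine Finset.sum_congr rfl fun u _ => ?_
    rw [eval_monomial, Finsupp.prod_fintype _ _ fun _ => pow_zero _]
    rfl
  refine ⟨q, ?_, ?_, ?_⟩
  · intro h
    apply hp0
    rw [← hqc, h, coeff_zero]
  · refine (totalDegree_finsetSum_le (d := k * D) fun u _ => ?_)
    refine (totalDegree_monomial_le _ _).trans ?_
    rw [Finsupp.sum_fintype _ _ fun _ => rfl]
    calc ∑ i, (mo u) i ≤ ∑ _i : Fin k, D := Finset.sum_le_sum fun i _ =>
          Nat.lt_succ_iff.1 (u i).2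
      _ = k * D := by simp
  · intro W c hc hind
    rw [hev]
    -- the polynomial in the independent coordinates
    let mj : (J → Fin (D + 1)) → (J →₀ ℕ) := fun w => Finsupp.equivFunOnFinite.symm
      fun j => (w j : ℕ)
    have hmj : Function.Injective mj := by
      intro w w' h
      funext i
      have := DFunLike.congr_fun h i
      exact Fin.ext this
    let R : MvPolynomial J ℂ := ∑ w, monomial (mj w) (∑ u, p (u, w) * ∏ i, c i ^ (u i : ℕ))
    have hR : R = 0 := by
      refine hind R fun y hy => ?_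
      rw [map_sum]
      have h4 := hp y
      rw [Fintype.sum_prod_type_right] at h4
      rw [← h4]
      refine Finset.sum_congr rfl fun w _ => ?_
      rw [eval_monomial, Finsupp.prod_fintype _ _ fun _ => pow_zero _, Finset.sum_mul]
      refine Finset.sum_congr rfl fun u _ => ?_
      rw [mul_assoc]
      congr 2
      exact Finset.prod_congr rfl fun i _ => by rw [hc y hy i]
    have h5 : coeff (mj w0) R = ∑ u, p (u, w0) * ∏ i, c i ^ (u i : ℕ) := by
      rw [coeff_sum, Finset.sum_eq_single w0]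
      · rw [coeff_monomial, if_pos rfl]
      · intro w' _ h
        rw [coeff_monomial, if_neg fun h' => h (hmj h')]
      · intro h
        exact absurd (Finset.mem_univ w0) h
    rw [← h5, hR, coeff_zero]

end Pool.Agent.R870.NY
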