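import Pool.Agent.H294ZP.Stmts
import Pool.Agent.R870.RZ.Defs

/-!
# Special subvarieties of `Y(1)^n` and systems of polynomials: definitions
-/

set_option autoImplicit false

namespace Pool.Agent.R870.NY

open MvPolynomial UpperHalfPlane H294ZP

/-- A special subvariety of `Y(1)^n = ℂ^n` of dimension `r` (with arbitrary constants): a map `cls`
from the coordinates onto `r` classes (`none` for the constant coordinates), an integral matrix of
positive determinant for every coordinate, and a constant for every coordinate. -/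
structure Special (n r : ℕ) where
  cls : Fin n → Option (Fin r)
  surj : ∀ l : Fin r, ∃ i, cls i = some l
  mat : Fin n → Matrix (Fin 2) (Fin 2) ℤ
  det_pos : ∀ i, 0 < (mat i).det
  const : Fin n → ℂ

/-- The points of the special subvariety: the constant coordinates are the given constants, and the
coordinates of class `l` are `j (g_i z_l)`, with a free parameter `z_l` in the upper half plane
(`jj = j = E₄³ / Δ` is the elliptic modular function). -/
def Special.locus {n r : ℕ} (Z : Special n r) : Set (Fin n → ℂ) :=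
  {x | ∃ z : Fin r → ℍ, ∀ i, (Z.cls i = none → x i = Z.const i) ∧
    ∀ l, Z.cls i = some l → ∃ w : ℍ,
      (w : ℂ) * (Z.mat i 1 0 * z l + Z.mat i 1 1) = Z.mat i 0 0 * z l + Z.mat i 0 1 ∧
      x i = jj w}

/-- `t = j(τ)` is a special point (singular modulus) of complexity at most `Δ`:
`a τ ^ 2 + b τ + c = 0` with integers `a ≠ 0`, `b`, `c` of absolute value at most `Δ`. -/
def SpecialPoint (Δ : ℕ) (t : ℂ) : Prop :=
  ∃ (τ : ℍ) (a b c : ℤ), a ≠ 0 ∧ |a| ≤ Δ ∧ |b| ≤ Δ ∧ |c| ≤ Δ ∧
    (a : ℂ) * (τ : ℂ) ^ 2 + b * τ + c = 0 ∧ t = jj τ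

/-- The index set of the coefficients of `k` polynomials with the supports `A_j`; it has
`∑ |A_j|` elements. -/
abbrev Coeff {n k : ℕ} (A : Fin k → Finset (Fin n → ℕ)) : Type := (j : Fin k) × {α // α ∈ A j}

/-- The closed subset `V_c` of `ℂ^n` which is defined by the polynomials
`∑_{α ∈ A_j} c_jα x ^ α`, `j < k`, with the integral coefficients `c`. -/
def system {n k : ℕ} (A : Fin k → Finset (Fin n → ℕ)) (c : Coeff A → ℤ) :
    Set (Fin n → ℂ) :=
  {x | ∀ j, ∑ α : {α // α ∈ A j}, (c ⟨j, α⟩ : ℂ) * ∏ l, x l ^ (α : Fin n → ℕ) l = 0}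

end Pool.Agent.R870.NY
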