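import Pool.Agent.R870.NY.Dim
import Pool.Agent.R870.NY.Defs
import Pool.Agent.R870.RZ.Main

/-!
# Counting the systems with an atypical intersection with a given set
-/

set_option autoImplicit false

namespace Pool.Agent.R870.NY

open MvPolynomial
open Pool.Agent.R870.RZ (idealOf mem_idealOf zeros)

variable {n k : ℕ}

/-- the coordinates in `J` are independent on `W` -/
def Indep (J : Finset (Fin n)) (W : Set (Fin n → ℂ)) : Prop :=
  ∀ R : MvPolynomial J ℂ, (∀ y ∈ W, eval (fun j : J => y (j : Fin n)) R = 0) → R = 0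

theorem indep_of {J : Finset (Fin n)} {W : Set (Fin n → ℂ)}
    (hind : AlgebraicIndependent ℂ
      (fun j : J => Ideal.Quotient.mk (idealOf W) (X (j : Fin n)))) : Indep J W := by
  intro R hR
  have h1 := algebraicIndependent_iff.1 hind R
  apply h1
  have h2 : aeval (fun j : J => Ideal.Quotient.mk (idealOf W) (X (j : Fin n))) R =
      Ideal.Quotient.mk (idealOf W) (rename (fun j : J => (j : Fin n)) R) := by
    have h3 : (aeval (fun j : J => Ideal.Quotient.mk (idealOf W) (X (j : Fin n))) :
        MvPolynomial J ℂ →ₐ[ℂ] _) = (Ideal.Quotient.mkₐ ℂ (idealOf W)).comp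
          (rename (fun j : J => (j : Fin n))) := by
      ext j
      simp
    exact DFunLike.congr_fun h3 R
  rw [h2, Ideal.Quotient.eq_zero_iff_mem, mem_idealOf]
  intro y hy
  rw [eval_rename]
  exact hR y hy

/-- the box of coefficient vectors -/
noncomputable def cbox (A : Fin k → Finset (Fin n → ℕ)) (H : ℕ) : Finset (Coeff A → ℤ) :=
  Fintype.piFinset fun _ => Finset.Icc (-(H : ℤ)) H

theorem mem_cbox {A : Fin k → Finset (Fin n → ℕ)} {H : ℕ} {c : Coeff A → ℤ} :
    c ∈ cbox A H ↔ ∀ x, |c x| ≤ H := by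
  rw [cbox, Fintype.mem_piFinset]
  exact forall_congr' fun x => by rw [Finset.mem_Icc, abs_le]

open Classical in
/-- the bad coefficient vectors for a set `T` and a set of coordinates -/
noncomputable def Bad (A : Fin k → Finset (Fin n → ℕ)) (H : ℕ) (T : Set (Fin n → ℂ))
    (J : Finset (Fin n)) : Finset (Coeff A → ℤ) :=
  (cbox A H).filter fun c => ∃ W : Set (Fin n → ℂ), W ⊆ system A c ∧ W ⊆ T ∧ Indep J W

/-- The number of bad coefficient vectors for one set. -/
theorem card_Bad (A : Fin k → Finset (Fin n → ℕ)) (hA : ∀ j, 0 ∈ A j) (e : ℕ)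
    (he : ∀ j, ∀ α ∈ A j, ∀ l, α l ≤ e) (T : Set (Fin n → ℂ)) {B m : ℕ} (hB : 1 ≤ B)
    (hgr : Growth (fun l (y : T) => y.1 l) B m) (J : Finset (Fin n))
    (hJ : m + 1 ≤ k + J.card) (H : ℕ) :
    (Bad A H T J).card * (2 * H + 1) ≤
      k * DD B n k e m * (2 * H + 1) ^ Fintype.card (Coeff A) := by
  classical
  let ch : Fin k → Coeff A := fun j => ⟨j, ⟨0, hA j⟩⟩
  have hch : Function.Injective ch := fun j j' h => congrArg Sigma.fst h
  let Rest : Type := {x : Coeff A // x ∉ Set.range ch}
  let π : (Coeff A → ℤ) → (Rest → ℤ) := fun c x => c x.1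
  have hcard : Fintype.card Rest + k = Fintype.card (Coeff A) := by
    have h1 := Fintype.card_subtype_compl (fun x : Coeff A => x ∈ Set.range ch)
    have h2 : Fintype.card {x : Coeff A // x ∈ Set.range ch} = k := by
      rw [Fintype.card_congr (Equiv.ofInjective ch hch).symm, Fintype.card_fin]
    have h3 : Fintype.card {x : Coeff A // x ∈ Set.range ch} ≤ Fintype.card (Coeff A) :=
      Fintype.card_subtype_le _
    change Fintype.card {x : Coeff A // ¬ x ∈ Set.range ch} + k = _
    rw [h1, h2]
    rw [h2] at h3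
    omega
  -- the fibres
  have hfib : ∀ ρ : Rest → ℤ, (((Bad A H T J).filter fun c => π c = ρ).card) * (2 * H + 1) ≤
      (k * DD B n k e m) * (2 * H + 1) ^ k := by
    intro ρ
    -- the functions g
    let cc : (j : Fin k) → {α // α ∈ A j} → ℂ := fun j α =>
      if h : (⟨j, α⟩ : Coeff A) ∉ Set.range ch then (ρ ⟨⟨j, α⟩, h⟩ : ℂ) else 0
    let g : Fin k → T → ℂ := fun j y => ∑ α : {α // α ∈ A j}, cc j α *
      ∏ l, y.1 l ^ (α : Fin n → ℕ) l
    have hg : ∀ j, g j ∈ P (fun l (y : T) => y.1 l) e := by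
      intro j
      have h1 : g j = ∑ α : {α // α ∈ A j}, cc j α •
          (∏ l, (fun y : T => y.1 l) ^ (α : Fin n → ℕ) l) := by
        funext y
        simp [g, Finset.sum_apply, Finset.prod_apply]
      rw [h1]
      exact Submodule.sum_mem _ fun α _ => Submodule.smul_mem _ _
        (mon_mem_P fun l => he j α α.2 l)
    obtain ⟨q, hq0, hqd, hq⟩ := exists_poly hB hgr g hg J hJ
    let Z : Finset (Fin k → ℤ) := ((Bad A H T J).filter fun c => π c = ρ).image
      fun c j => - c (ch j)
    have hZcard : Z.card = ((Bad A H T J).filter fun c => π c = ρ).card := by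
      refine Finset.card_image_of_injOn ?_
      intro c hc c' hc' h
      have h1 := (Finset.mem_filter.1 (Finset.mem_coe.1 hc)).2
      have h2 := (Finset.mem_filter.1 (Finset.mem_coe.1 hc')).2
      funext x
      by_cases hx : x ∈ Set.range ch
      · obtain ⟨j, rfl⟩ := hx
        have := congrFun h j
        exact neg_injective this
      · have h3 : π c ⟨x, hx⟩ = π c' ⟨x, hx⟩ := by rw [h1, h2]
        exact h3
    rw [← hZcard]
    refine zeros q hq0 _ hqd H Z ?_ ?_
    · intro y hy i
      obtain ⟨c, hc, rfl⟩ := Finset.mem_image.1 hy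
      rw [abs_neg]
      exact mem_cbox.1 (Finset.mem_filter.1 (Finset.mem_filter.1 hc).1).1 _
    · intro y hy
      obtain ⟨c, hc, rfl⟩ := Finset.mem_image.1 hy
      obtain ⟨hc1, hc2⟩ := Finset.mem_filter.1 hc
      obtain ⟨_, W, hWV, hWT, hWJ⟩ := Finset.mem_filter.1 hc1
      refine hq {y : T | y.1 ∈ W} _ ?_ ?_
      · intro y hy i
        have h1 := (hWV hy) i
        -- split off the constant term
        have h5 : g i y = ∑ α ∈ Finset.univ.erase ⟨0, hA i⟩, (c ⟨i, α⟩ : ℂ) *
            ∏ l, y.1 l ^ (α : Fin n → ℕ) l := by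
          have h6 : g i y = ∑ α : {α // α ∈ A i}, cc i α * ∏ l, y.1 l ^ (α : Fin n → ℕ) l := rfl
          rw [h6, ← Finset.add_sum_erase _ _ (Finset.mem_univ (⟨0, hA i⟩ : {α // α ∈ A i}))]
          have h7 : cc i ⟨0, hA i⟩ = 0 := dif_neg fun h => h ⟨i, rfl⟩
          rw [h7, zero_mul, zero_add]
          refine Finset.sum_congr rfl fun α hα => ?_
          have h8 : (⟨i, α⟩ : Coeff A) ∉ Set.range ch := by
            rintro ⟨j, hj⟩
            have h9 : j = i := congrArg Sigma.fst hj
            subst h9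
            have h10 : (⟨0, hA j⟩ : {α // α ∈ A j}) = α := by simpa [ch] using hj
            exact (Finset.ne_of_mem_erase hα) h10.symm
          have h9 : cc i α = (ρ ⟨⟨i, α⟩, h8⟩ : ℂ) := dif_pos h8
          rw [h9, ← hc2]
        rw [h5]
        rw [← Finset.add_sum_erase _ _ (Finset.mem_univ (⟨0, hA i⟩ : {α // α ∈ A i}))] at h1
        simp only [Pi.zero_apply, pow_zero, Finset.prod_const_one, mul_one] at h1
        push_cast
        exact eq_neg_of_add_eq_zero_right h1
      · intro R hR
        refine hWJ R fun y hy => ?_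
        exact hR ⟨y, hWT hy⟩ hy
  -- summation over the fibres
  have h1 := Finset.card_le_mul_card_image (s := Bad A H T J) (f := π)
    ((k * DD B n k e m) * (2 * H + 1) ^ k / (2 * H + 1)) (by
      intro ρ _
      rw [Nat.le_div_iff_mul_le (by omega)]
      exact hfib ρ)
  have h2 : ((Bad A H T J).image π).card ≤ (2 * H + 1) ^ Fintype.card Rest := by
    have h3 : (Bad A H T J).image π ⊆
        Fintype.piFinset fun _ : Rest => Finset.Icc (-(H : ℤ)) H := by
      intro ρ hρ
      obtain ⟨c, hc, rfl⟩ := Finset.mem_image.1 hρ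
      rw [Fintype.mem_piFinset]
      intro x
      rw [Finset.mem_Icc]
      exact abs_le.1 (mem_cbox.1 (Finset.mem_filter.1 hc).1 _)
    refine (Finset.card_le_card h3).trans ?_
    rw [Fintype.card_piFinset, Finset.prod_const, Finset.card_univ, Int.card_Icc]
    refine Nat.pow_le_pow_left ?_ _
    omega
  calc (Bad A H T J).card * (2 * H + 1)
      ≤ (((k * DD B n k e m) * (2 * H + 1) ^ k / (2 * H + 1)) *
          (2 * H + 1) ^ Fintype.card Rest) * (2 * H + 1) :=
        Nat.mul_le_mul_right _ (h1.trans (Nat.mul_le_mul_left _ h2))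
    _ = (((k * DD B n k e m) * (2 * H + 1) ^ k / (2 * H + 1)) * (2 * H + 1)) *
          (2 * H + 1) ^ Fintype.card Rest := by ring
    _ ≤ ((k * DD B n k e m) * (2 * H + 1) ^ k) * (2 * H + 1) ^ Fintype.card Rest :=
        Nat.mul_le_mul_right _ (Nat.div_mul_le_self _ _)
    _ = k * DD B n k e m * (2 * H + 1) ^ Fintype.card (Coeff A) := by
        rw [← hcard, pow_add]
        ring

end Pool.Agent.R870.NY
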