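import Pool.Agent.R870.NY.Mod
import Pool.Agent.R870.NY.Count

/-!
# Random systems of polynomials have only typical intersections with the special subvarieties of
`Y(1)^n` of small complexity
-/

set_option autoImplicit false

namespace Pool.Agent.R870.NY

open Polynomial UpperHalfPlane H294ZP
open Pool.Agent.R870.RZ (idealOf dim exists_J)

variable {n k : ℕ}

/-- The sets defined by modular relations and constants. -/
def Zset {n r : ℕ} (Φ : ℕ → ℂ[X][X]) (cls : Fin n → Option (Fin r)) (base : Fin r → Fin n)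
    (N : Fin n → ℕ) (t : Fin n → ℂ) : Set (Fin n → ℂ) :=
  {y | ∀ i, (cls i = none → y i = t i) ∧
    ∀ l, cls i = some l → ((Φ (N i)).map (evalRingHom (y (base l)))).eval (y i) = 0}

/-- properties of the modular polynomials -/
def ModProp (Φ : ℕ → ℂ[X][X]) : Prop := ∀ N : ℕ, 0 < N → (Φ N).Monic ∧
  (Φ N).natDegree ≤ N ^ 3 ∧ (∀ j, ((Φ N).coeff j).natDegree ≤ N ^ 3) ∧
    ∀ (p q r s : ℤ), p * s - q * r = N → ∀ τ w : ℍ, (w : ℂ) * (r * τ + s) = p * τ + q →
      ((Φ N).map (evalRingHom (jj τ))).eval (jj w) = 0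

theorem exists_Phi : ∃ Φ : ℕ → ℂ[X][X], ModProp Φ := by
  have h : ∀ N : ℕ, ∃ Φ : ℂ[X][X], 0 < N → Φ.Monic ∧
      Φ.natDegree ≤ N ^ 3 ∧ (∀ j, (Φ.coeff j).natDegree ≤ N ^ 3) ∧
      ∀ (p q r s : ℤ), p * s - q * r = N → ∀ τ w : ℍ, (w : ℂ) * (r * τ + s) = p * τ + q →
        (Φ.map (evalRingHom (jj τ))).eval (jj w) = 0 := by
    intro N
    rcases Nat.eq_zero_or_pos N with h0 | h0
    · exact ⟨0, fun h => absurd h (by omega)⟩
    · obtain ⟨Φ, hΦ⟩ := modular h0
      exact ⟨Φ, fun _ => hΦ⟩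
  choose Φ hΦ using h
  exact ⟨Φ, hΦ⟩

theorem locus_subset {Φ : ℕ → ℂ[X][X]} (hΦ : ModProp Φ) {r : ℕ} (Z : Special n r) (Δ : ℕ)
    (hΔ : ∀ i, (Z.mat i).det ≤ Δ) : ∃ (base : Fin r → Fin n) (N : Fin n → ℕ) (t : Fin n → ℂ),
      (∀ i, 1 ≤ N i ∧ N i ≤ Δ ^ 2) ∧ (∀ i, t i = 0 ∨ (Z.cls i = none ∧ t i = Z.const i)) ∧
      Z.locus ⊆ Zset Φ Z.cls base N t := by
  classical
  choose base hbase using Z.surj
  have hΔ2 : ∀ i j, ((Z.mat i).det * (Z.mat j).det).toNat ≤ Δ ^ 2 := by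
    intro i j
    rw [Int.toNat_le]
    push_cast
    rw [pow_two]
    exact mul_le_mul (hΔ i) (hΔ j) (Z.det_pos j).le (by positivity)
  have hΔ1 : ∀ i j, 1 ≤ ((Z.mat i).det * (Z.mat j).det).toNat := by
    intro i j
    have := mul_pos (Z.det_pos i) (Z.det_pos j)
    omega
  let b : Fin n → Fin n := fun i => match Z.cls i with
    | none => i
    | some l => base l
  refine ⟨base, fun i => ((Z.mat i).det * (Z.mat (b i)).det).toNat,
    fun i => if Z.cls i = none then Z.const i else 0, fun i => ⟨hΔ1 _ _, hΔ2 _ _⟩, ?_, ?_⟩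
  · intro i
    by_cases h : Z.cls i = none
    · right
      exact ⟨h, if_pos h⟩
    · left
      exact if_neg h
  · rintro x ⟨z, hz⟩ i
    constructor
    · intro hi
      rw [(hz i).1 hi]
      exact (if_pos hi).symm
    · intro l hl
      obtain ⟨w, hw, hx⟩ := (hz i).2 l hl
      obtain ⟨v, hv, hx'⟩ := (hz (base l)).2 l (hbase l)
      have hb : b i = base l := by simp only [b, hl]
      rw [hx, hx']
      obtain ⟨_, _, _, hrel⟩ := hΦ _ (hΔ1 i (b i))
      refine hrel (Z.mat i 0 0 * Z.mat (base l) 1 1 - Z.mat i 0 1 * Z.mat (base l) 1 0)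
        (-(Z.mat i 0 0 * Z.mat (base l) 0 1) + Z.mat i 0 1 * Z.mat (base l) 0 0)
        (Z.mat i 1 0 * Z.mat (base l) 1 1 - Z.mat i 1 1 * Z.mat (base l) 1 0)
        (-(Z.mat i 1 0 * Z.mat (base l) 0 1) + Z.mat i 1 1 * Z.mat (base l) 0 0) ?_ v w ?_
      · rw [Int.toNat_of_nonneg (mul_pos (Z.det_pos _) (Z.det_pos _)).le, hb,
          Matrix.det_fin_two, Matrix.det_fin_two]
        ring
      · push_cast
        linear_combination ((Z.mat (base l) 0 0 : ℂ) - Z.mat (base l) 1 0 * v) * hw +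
          ((w : ℂ) * Z.mat i 1 0 - Z.mat i 0 0) * hv

theorem growth_Zset {Φ : ℕ → ℂ[X][X]} (hΦ : ModProp Φ) {r : ℕ} (cls : Fin n → Option (Fin r))
    (base : Fin r → Fin n) (N : Fin n → ℕ) (t : Fin n → ℂ) (Δ : ℕ)
    (hN : ∀ i, 1 ≤ N i ∧ N i ≤ Δ ^ 2) (hΔ : 1 ≤ Δ) :
    Growth (fun l (y : Zset Φ cls base N t) => y.1 l) (BB n r (Δ ^ 6)) r := by
  have h3 : ∀ i, N i ^ 3 ≤ Δ ^ 6 := by
    intro i
    calc N i ^ 3 ≤ (Δ ^ 2) ^ 3 := Nat.pow_le_pow_left (hN i).2 3
      _ = Δ ^ 6 := by rw [← pow_mul]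
  refine growth_special _ cls base (Δ ^ 6) (Nat.one_le_pow _ _ hΔ) (fun i => Φ (N i))
    (fun i => (hΦ _ (hN i).1).1) (fun i => (hΦ _ (hN i).1).2.1.trans (h3 i))
    (fun i j => ((hΦ _ (hN i).1).2.2.1 j).trans (h3 i)) ?_ t ?_
  · intro i l hl y
    exact (y.2 i).2 l hl
  · intro i hi y
    exact (y.2 i).1 hi

theorem growth_univ : Growth (fun l (y : (Set.univ : Set (Fin n → ℂ))) => y.1 l)
    (BB n n 1) n := by
  refine growth_special _ (fun i => some i) id 1 le_rfl (fun _ => X - C X)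
    (fun i => monic_X_sub_C _) (fun i => (natDegree_X_sub_C _).le) ?_ ?_ 0 ?_
  · intro i j
    rw [coeff_sub, coeff_C, coeff_X]
    by_cases h0 : j = 0
    · subst h0
      simp [natDegree_neg]
    · by_cases h1 : (1 : ℕ) = j <;> simp [h1, h0]
  · intro i l hl y
    have : i = l := Option.some.inj hl
    subst this
    simp
  · intro i hi
    exact (Option.some_ne_none i hi).elim

/-- The constant in the theorem. -/
def CC (n k e : ℕ) : ℕ := (n + 1) * ((n + 1) ^ n * ((n + 1) ^ n * 2 ^ n)) *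
    (k * (((n + 1) ^ n * 2 ^ n) * (k * e + n + 1) ^ n)) +
  2 ^ n * (k * (((n + 1) ^ n * 2 ^ n) * (k * e + n + 1) ^ n))

theorem BB_le {r δ : ℕ} (hr : r ≤ n) (hδ : 1 ≤ δ) :
    BB n r δ ≤ (n + 1) ^ n * 2 ^ n * δ ^ (2 * n) := by
  rw [BB]
  calc ((n + 1) * δ) ^ r * (2 * δ) ^ n ≤ ((n + 1) * δ) ^ n * (2 * δ) ^ n :=
        Nat.mul_le_mul_right _ (Nat.pow_le_pow_right (by positivity) hr)
    _ = _ := by rw [mul_pow, mul_pow, two_mul n, pow_add]; ring

theorem DD_le {B e r : ℕ} (hr : r ≤ n) : DD B n k e r ≤ B * (k * e + n + 1) ^ n :=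
  Nat.mul_le_mul_left _ (Nat.pow_le_pow_right (by omega) hr)

theorem main (A : Fin k → Finset (Fin n → ℕ)) (hA : ∀ j, 0 ∈ A j) :
    ∃ C : ℕ, ∀ (H Δ : ℕ), 1 ≤ Δ → ∀ G : Finset ℂ, ∃ E : Finset (Coeff A → ℤ),
      E.card * (2 * H + 1) ≤
        C * (G.card + 1) ^ n * Δ ^ (14 * n) * (2 * H + 1) ^ Fintype.card (Coeff A) ∧
      ∀ c : Coeff A → ℤ, (∀ x, |c x| ≤ H) → c ∉ E →
        (∀ W : Set (Fin n → ℂ), W ⊆ system A c → (idealOf W).IsPrime →
          dim W + (k : Cardinal) ≤ (n : Cardinal)) ∧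
        ∀ (r : ℕ) (Z : Special n r), (∀ i, (Z.mat i).det ≤ Δ) →
          (∀ i, Z.cls i = none → Z.const i ∈ G) → ∀ W : Set (Fin n → ℂ),
          W ⊆ system A c → W ⊆ Z.locus → (idealOf W).IsPrime →
            dim W + (k : Cardinal) ≤ (r : Cardinal) := by
  classical
  obtain ⟨Φ, hΦ⟩ := exists_Phi
  let e : ℕ := ∑ j, ∑ α ∈ A j, ∑ l, α l
  have he : ∀ j, ∀ α ∈ A j, ∀ l, α l ≤ e := by
    intro j α hα l
    have h1 : α l ≤ ∑ l, α l := Finset.single_le_sum (fun _ _ => Nat.zero_le _) (Finset.mem_univ l)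
    have h2 : ∑ l, α l ≤ ∑ α ∈ A j, ∑ l, α l :=
      Finset.single_le_sum (f := fun α : Fin n → ℕ => ∑ l, α l) (fun _ _ => Nat.zero_le _) hα
    have h3 : ∑ α ∈ A j, ∑ l, α l ≤ e :=
      Finset.single_le_sum (f := fun j => ∑ α ∈ A j, ∑ l, α l)
        (fun _ _ => Nat.zero_le _) (Finset.mem_univ j)
    exact h1.trans (h2.trans h3)
  refine ⟨CC n k e, fun H Δ hΔ G => ?_⟩
  let S : (r : ℕ) → Finset ((Fin n → Option (Fin r)) × (Fin r → Fin n) × (Fin n → ℕ) ×
      (Fin n → ℂ) × Finset (Fin n)) := fun r =>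
    Finset.univ ×ˢ Finset.univ ×ˢ (Fintype.piFinset fun _ => Finset.Icc 1 (Δ ^ 2)) ×ˢ
      (Fintype.piFinset fun _ => insert 0 G) ×ˢ
        (Finset.univ.filter fun J : Finset (Fin n) => r + 1 ≤ k + J.card)
  obtain ⟨q, hq⟩ : ∃ q, q = (n + 1) ^ n * ((n + 1) ^ n * ((Δ ^ 2) ^ n * ((G.card + 1) ^ n *
      2 ^ n))) := ⟨_, rfl⟩
  have hS : ∀ r, r ≤ n → (S r).card ≤ q := by
    intro r hr
    simp only [S, Finset.card_product, Finset.card_univ, Fintype.card_fun, Fintype.card_option,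
      Fintype.card_fin, Fintype.card_piFinset, Finset.prod_const]
    rw [hq]
    refine Nat.mul_le_mul (Nat.pow_le_pow_left (by omega) n) (Nat.mul_le_mul ?_
      (Nat.mul_le_mul ?_ (Nat.mul_le_mul (Nat.pow_le_pow_left (Finset.card_insert_le _ _) n) ?_)))
    · exact (Nat.pow_le_pow_left (by omega) r).trans (Nat.pow_le_pow_right (by omega) hr)
    · rw [Nat.card_Icc, Nat.add_sub_cancel]
    · refine (Finset.card_filter_le _ _).trans ?_
      simp
  let E1 : Finset (Coeff A → ℤ) := (Finset.range (n + 1)).biUnion fun r =>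
    (S r).biUnion fun p => Bad A H (Zset Φ p.1 p.2.1 p.2.2.1 p.2.2.2.1) p.2.2.2.2
  let E2 : Finset (Coeff A → ℤ) :=
    (Finset.univ.filter fun J : Finset (Fin n) => n + 1 ≤ k + J.card).biUnion fun J =>
      Bad A H Set.univ J
  obtain ⟨K, hK⟩ : ∃ K, K = (n + 1) ^ n * 2 ^ n * (k * e + n + 1) ^ n := ⟨_, rfl⟩
  obtain ⟨U, hU⟩ : ∃ U, U = (2 * H + 1) ^ Fintype.card (Coeff A) := ⟨_, rfl⟩
  refine ⟨E1 ∪ E2, ?_, ?_⟩
  · have h1 : ∀ r, r ≤ n → ∀ p ∈ S r,
        (Bad A H (Zset Φ p.1 p.2.1 p.2.2.1 p.2.2.2.1) p.2.2.2.2).card * (2 * H + 1) ≤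
          k * (K * Δ ^ (12 * n)) * U := by
      intro r hr p hp
      simp only [S, Finset.mem_product, Finset.mem_univ, true_and, Fintype.mem_piFinset,
        Finset.mem_filter] at hp
      obtain ⟨hp1, hp2, hp3⟩ := hp
      have h2 := card_Bad A hA e he (Zset Φ p.1 p.2.1 p.2.2.1 p.2.2.2.1)
        (BB_pos (Nat.one_le_pow _ _ hΔ))
        (growth_Zset hΦ p.1 p.2.1 p.2.2.1 p.2.2.2.1 Δ (fun i => Finset.mem_Icc.1 (hp1 i)) hΔ)
        p.2.2.2.2 hp3 H
      rw [hU]
      refine h2.trans (Nat.mul_le_mul_right _ (Nat.mul_le_mul_left _ ?_))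
      refine (DD_le hr).trans ?_
      have h3 := BB_le (δ := Δ ^ 6) hr (Nat.one_le_pow _ _ hΔ)
      rw [← pow_mul] at h3
      calc BB n r (Δ ^ 6) * (k * e + n + 1) ^ n ≤
          ((n + 1) ^ n * 2 ^ n * Δ ^ (6 * (2 * n))) * (k * e + n + 1) ^ n :=
            Nat.mul_le_mul_right _ h3
        _ = K * Δ ^ (12 * n) := by
            rw [hK, show 6 * (2 * n) = 12 * n by ring]; ring
    have hE1 : E1.card * (2 * H + 1) ≤ (n + 1) * (q * (k * (K * Δ ^ (12 * n)) * U)) := by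
      have h2 : E1.card ≤ ∑ r ∈ Finset.range (n + 1), ∑ p ∈ S r,
          (Bad A H (Zset Φ p.1 p.2.1 p.2.2.1 p.2.2.2.1) p.2.2.2.2).card :=
        Finset.card_biUnion_le.trans (Finset.sum_le_sum fun r _ => Finset.card_biUnion_le)
      calc E1.card * (2 * H + 1) ≤ (∑ r ∈ Finset.range (n + 1), ∑ p ∈ S r,
            (Bad A H (Zset Φ p.1 p.2.1 p.2.2.1 p.2.2.2.1) p.2.2.2.2).card) * (2 * H + 1) :=
            Nat.mul_le_mul_right _ h2
        _ = ∑ r ∈ Finset.range (n + 1), ∑ p ∈ S r,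
            (Bad A H (Zset Φ p.1 p.2.1 p.2.2.1 p.2.2.2.1) p.2.2.2.2).card * (2 * H + 1) := by
            simp only [Finset.sum_mul]
        _ ≤ ∑ r ∈ Finset.range (n + 1), ∑ _p ∈ S r, k * (K * Δ ^ (12 * n)) * U :=
            Finset.sum_le_sum fun r hr => Finset.sum_le_sum fun p hp =>
              h1 r (Nat.lt_succ_iff.1 (Finset.mem_range.1 hr)) p hp
        _ = ∑ r ∈ Finset.range (n + 1), (S r).card * (k * (K * Δ ^ (12 * n)) * U) := by
            simp only [Finset.sum_const, smul_eq_mul]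
        _ ≤ ∑ _r ∈ Finset.range (n + 1), q * (k * (K * Δ ^ (12 * n)) * U) :=
            Finset.sum_le_sum fun r hr => Nat.mul_le_mul_right _
              (hS r (Nat.lt_succ_iff.1 (Finset.mem_range.1 hr)))
        _ = _ := by rw [Finset.sum_const, Finset.card_range, smul_eq_mul]
    have hE2 : E2.card * (2 * H + 1) ≤ 2 ^ n * (k * K * U) := by
      have h2 : E2.card ≤ ∑ J ∈ Finset.univ.filter fun J : Finset (Fin n) => n + 1 ≤ k + J.card,
          (Bad A H Set.univ J).card := Finset.card_biUnion_le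
      calc E2.card * (2 * H + 1) ≤
          (∑ J ∈ Finset.univ.filter fun J : Finset (Fin n) => n + 1 ≤ k + J.card,
            (Bad A H Set.univ J).card) * (2 * H + 1) := Nat.mul_le_mul_right _ h2
        _ = ∑ J ∈ Finset.univ.filter fun J : Finset (Fin n) => n + 1 ≤ k + J.card,
            (Bad A H Set.univ J).card * (2 * H + 1) := by rw [Finset.sum_mul]
        _ ≤ ∑ _J ∈ Finset.univ.filter fun J : Finset (Fin n) => n + 1 ≤ k + J.card,
            k * K * U := by
            refine Finset.sum_le_sum fun J hJ => ?_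
            have h2 := card_Bad A hA e he Set.univ (BB_pos le_rfl) growth_univ J
              (Finset.mem_filter.1 hJ).2 H
            rw [hU]
            refine h2.trans (Nat.mul_le_mul_right _ (Nat.mul_le_mul_left _ ?_))
            refine (DD_le le_rfl).trans ?_
            have h3 := BB_le (n := n) (δ := 1) le_rfl le_rfl
            rw [one_pow, mul_one] at h3
            rw [hK]
            exact Nat.mul_le_mul_right _ h3
        _ ≤ 2 ^ n * (k * K * U) := by
            rw [Finset.sum_const, smul_eq_mul]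
            refine Nat.mul_le_mul_right _ ((Finset.card_filter_le _ _).trans ?_)
            simp
    have h4 : (E1 ∪ E2).card * (2 * H + 1) ≤
        (n + 1) * (q * (k * (K * Δ ^ (12 * n)) * U)) + 2 ^ n * (k * K * U) :=
      (Nat.mul_le_mul_right _ (Finset.card_union_le _ _)).trans (by
        rw [Nat.add_mul]
        exact add_le_add hE1 hE2)
    refine h4.trans ?_
    rw [← hU]
    have h5 : 1 ≤ (G.card + 1) ^ n * Δ ^ (14 * n) :=
      Nat.mul_pos (pow_pos (by omega) _) (pow_pos (by omega) _)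
    have h6 : 2 ^ n * (k * K * U) ≤ 2 ^ n * (k * K * U) * ((G.card + 1) ^ n * Δ ^ (14 * n)) :=
      Nat.le_mul_of_pos_right _ h5
    calc (n + 1) * (q * (k * (K * Δ ^ (12 * n)) * U)) + 2 ^ n * (k * K * U)
        ≤ (n + 1) * (q * (k * (K * Δ ^ (12 * n)) * U)) +
          2 ^ n * (k * K * U) * ((G.card + 1) ^ n * Δ ^ (14 * n)) := by omega
      _ = CC n k e * (G.card + 1) ^ n * Δ ^ (14 * n) * U := by
          rw [hq, hK, CC, ← pow_mul, show 14 * n = 2 * n + 12 * n by ring, pow_add]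
          ring
  · intro c hc hcE
    rw [Finset.mem_union, not_or] at hcE
    refine ⟨fun W hWV hWp => ?_, fun r Z hZ hG W hWV hWZ hWp => ?_⟩
    · obtain ⟨J, hJ, hJd⟩ := exists_J W hWp
      rw [← hJd]
      by_contra hcon
      have hcon' : ¬ (J.card + k ≤ n) := by
        intro h
        apply hcon
        exact_mod_cast h
      apply hcE.2
      rw [Finset.mem_biUnion]
      refine ⟨J, Finset.mem_filter.2 ⟨Finset.mem_univ _, by omega⟩, ?_⟩
      rw [Bad, Finset.mem_filter]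
      exact ⟨mem_cbox.2 hc, W, hWV, Set.subset_univ _, indep_of hJ⟩
    · obtain ⟨J, hJ, hJd⟩ := exists_J W hWp
      rw [← hJd]
      by_contra hcon
      have hcon' : ¬ (J.card + k ≤ r) := by
        intro h
        apply hcon
        exact_mod_cast h
      have hrn : r ≤ n := by
        choose b hb using Z.surj
        have hbi : Function.Injective b := by
          intro l l' h
          have h1 := hb l
          rw [h, hb l'] at h1
          exact (Option.some.inj h1).symm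
        simpa using Fintype.card_le_of_injective b hbi
      obtain ⟨base, N, t, hN, ht, hsub⟩ := locus_subset hΦ Z Δ hZ
      apply hcE.1
      rw [Finset.mem_biUnion]
      refine ⟨r, Finset.mem_range.2 (Nat.lt_succ_of_le hrn), ?_⟩
      rw [Finset.mem_biUnion]
      refine ⟨(Z.cls, base, N, t, J), ?_, ?_⟩
      · simp only [S, Finset.mem_product, Finset.mem_univ, true_and, Fintype.mem_piFinset,
          Finset.mem_filter, Finset.mem_Icc, Finset.mem_insert]
        refine ⟨fun i => hN i, fun i => ?_, by omega⟩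
        rcases ht i with h | ⟨h, h'⟩
        · exact Or.inl h
        · right
          rw [h']
          exact hG i h
      · rw [Bad, Finset.mem_filter]
        exact ⟨mem_cbox.2 hc, W, hWV, hWZ.trans hsub, indep_of hJ⟩

end Pool.Agent.R870.NY
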