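import Pool.Agent.R870.NY.Gen

/-!
# Growth of the polynomial functions on sets defined by monic relations between pairs of coordinates
-/

set_option autoImplicit false

namespace Pool.Agent.R870.NY

open Polynomial

theorem pow_red {T : Type} (u v : T → ℂ) (Φ : ℂ[X][X]) (hΦ : Φ.Monic) (δ : ℕ)
    (h1 : Φ.natDegree ≤ δ) (h2 : ∀ j, (Φ.coeff j).natDegree ≤ δ)
    (h : ∀ y, (Φ.map (evalRingHom (u y))).eval (v y) = 0) (e : ℕ) :
    v ^ e ∈ Submodule.span ℂ {f : T → ℂ | ∃ a b : ℕ, a ≤ e * δ ∧ b ≤ δ ∧ f = u ^ a * v ^ b} := by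
  rcases Nat.eq_zero_or_pos Φ.natDegree with h0 | h0
  · have h3 : Φ = 1 := Polynomial.eq_one_of_monic_natDegree_zero hΦ h0
    have h4 : v ^ e = 0 := by
      funext y
      have := h y
      rw [h3] at this
      simp at this
    rw [h4]
    exact Submodule.zero_mem _
  · have key : v ^ e ∈ Submodule.span ℂ {f : T → ℂ | ∃ a b : ℕ, a ≤ e * δ ∧ b < Φ.natDegree ∧
        f = u ^ a * v ^ b} := by
      have hred : v ^ Φ.natDegree = ∑ j ∈ Finset.range Φ.natDegree,
          ∑ i ∈ Finset.range (δ + 1), (-((Φ.coeff j).coeff i)) • (u ^ i * v ^ j) := by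
        funext y
        have h3 := h y
        rw [eval_eq_sum_range, hΦ.natDegree_map, Finset.sum_range_succ, coeff_map,
          hΦ.coeff_natDegree, map_one, one_mul] at h3
        have h4 : ∀ j, ((Φ.map (evalRingHom (u y))).coeff j) * v y ^ j =
            ∑ i ∈ Finset.range (δ + 1), (Φ.coeff j).coeff i * (u y ^ i * v y ^ j) := by
          intro j
          rw [coeff_map, coe_evalRingHom,
            eval_eq_sum_range' (Nat.lt_succ_of_le (h2 j)) (u y), Finset.sum_mul]
          exact Finset.sum_congr rfl fun i _ => by ring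
        simp only [Finset.sum_apply, Pi.smul_apply, Pi.mul_apply, Pi.pow_apply, smul_eq_mul,
          neg_mul, Finset.sum_neg_distrib]
        rw [Finset.sum_congr rfl fun j _ => h4 j] at h3
        exact eq_neg_of_add_eq_zero_right h3
      induction e with
      | zero =>
        refine Submodule.subset_span ⟨0, 0, Nat.zero_le _, h0, ?_⟩
        simp
      | succ e ih =>
        rw [pow_succ']
        obtain ⟨w, hw⟩ : ∃ w, w = v ^ e := ⟨_, rfl⟩
        rw [← hw] at ih ⊢
        clear hw
        induction ih using Submodule.span_induction with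
        | mem f hf =>
          obtain ⟨a, b, ha, hb, rfl⟩ := hf
          rcases Nat.lt_or_ge (b + 1) Φ.natDegree with hb' | hb'
          · refine Submodule.subset_span ⟨a, b + 1, ?_, hb', ?_⟩
            · rw [Nat.succ_mul]; omega
            · rw [pow_succ]; ring
          · have hb2 : b + 1 = Φ.natDegree := by omega
            have h5 : v * (u ^ a * v ^ b) = u ^ a * v ^ Φ.natDegree := by
              rw [← hb2, pow_succ]; ring
            rw [h5, hred, Finset.mul_sum]
            refine Submodule.sum_mem _ fun j hj => ?_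
            rw [Finset.mul_sum]
            refine Submodule.sum_mem _ fun i hi => ?_
            rw [mul_smul_comm]
            refine Submodule.smul_mem _ _ (Submodule.subset_span ⟨a + i, j, ?_,
              Finset.mem_range.1 hj, ?_⟩)
            · have := Finset.mem_range.1 hi
              rw [Nat.succ_mul]; omega
            · rw [pow_add]; ring
        | zero => rw [mul_zero]; exact Submodule.zero_mem _
        | add f g _ _ hf hg => rw [mul_add]; exact Submodule.add_mem _ hf hg
        | smul c f _ hf => rw [mul_smul_comm]; exact Submodule.smul_mem _ _ hf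
    refine Submodule.span_mono ?_ key
    rintro f ⟨a, b, ha, hb, rfl⟩
    exact ⟨a, b, ha, by omega, rfl⟩

/-- the constant in the growth condition -/
def BB (n r δ : ℕ) : ℕ := ((n + 1) * δ) ^ r * (2 * δ) ^ n

theorem BB_pos {n r δ : ℕ} (hδ : 1 ≤ δ) : 1 ≤ BB n r δ :=
  Nat.mul_pos (pow_pos (by positivity) _) (pow_pos (by omega) _)

theorem growth_special {n r : ℕ} {T : Type} (x : Fin n → T → ℂ) (cls : Fin n → Option (Fin r))
    (base : Fin r → Fin n) (δ : ℕ) (hδ : 1 ≤ δ) (Φ : Fin n → ℂ[X][X])
    (hΦ : ∀ i, (Φ i).Monic) (h1 : ∀ i, (Φ i).natDegree ≤ δ)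
    (h2 : ∀ i j, ((Φ i).coeff j).natDegree ≤ δ)
    (h : ∀ i l, cls i = some l → ∀ y, ((Φ i).map (evalRingHom (x (base l) y))).eval (x i y) = 0)
    (t : Fin n → ℂ) (ht : ∀ i, cls i = none → ∀ y, x i y = t i) :
    Growth x (BB n r δ) r := by
  classical
  intro L hL
  let F : (Fin r → Fin (n * (L * δ) + 1)) × (Fin n → Fin (δ + 1)) → T → ℂ := fun p =>
    (∏ l, x (base l) ^ (p.1 l : ℕ)) * ∏ i, x i ^ (p.2 i : ℕ)
  let u : Fin n → T → ℂ := fun i => match cls i with
    | none => 1
    | some l => x (base l)
  have hu : ∀ i l, cls i = some l → u i = x (base l) := by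
    intro i l hl
    simp only [u, hl]
  have hu0 : ∀ i, cls i = none → u i = 1 := by
    intro i hl
    simp only [u, hl]
  let Rs : Fin n → Set (T → ℂ) := fun i =>
    {f : T → ℂ | ∃ a b : ℕ, a ≤ L * δ ∧ b ≤ δ ∧ f = u i ^ a * x i ^ b}
  have hR : ∀ i e, e ≤ L → x i ^ e ∈ Submodule.span ℂ (Rs i) := by
    intro i e he
    cases hc : cls i with
    | none =>
      have h3 : x i ^ e = (t i ^ e) • (u i ^ 0 * x i ^ 0) := by
        funext y
        simp [ht i hc y]
      rw [h3]
      exact Submodule.smul_mem _ _ (Submodule.subset_span ⟨0, 0, Nat.zero_le _, Nat.zero_le _, rfl⟩)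
    | some l =>
      have h3 := pow_red (x (base l)) (x i) (Φ i) (hΦ i) δ (h1 i) (h2 i) (h i l hc) e
      refine Submodule.span_mono ?_ h3
      rintro f ⟨a, b, ha, hb, rfl⟩
      refine ⟨a, b, ha.trans (Nat.mul_le_mul_right _ he), hb, ?_⟩
      rw [hu i l hc]
  have hP : P x L ≤ Submodule.span ℂ (Set.range F) := by
    refine Submodule.span_le.2 ?_
    rintro f ⟨e, he, rfl⟩
    have h3 : ∏ l, x l ^ e l ∈ ∏ i : Fin n, Submodule.span ℂ (Rs i) := by
      have : ∀ S : Finset (Fin n), ∏ l ∈ S, x l ^ e l ∈ ∏ i ∈ S, Submodule.span ℂ (Rs i) := by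
        intro S
        induction S using Finset.induction_on with
        | empty => rw [Finset.prod_empty, Finset.prod_empty]; exact Submodule.one_le.1 le_rfl
        | insert a S ha ih =>
          rw [Finset.prod_insert ha, Finset.prod_insert ha]
          exact Submodule.mul_mem_mul (hR a _ (he a)) ih
      exact this Finset.univ
    rw [Submodule.prod_span] at h3
    refine Submodule.span_mono ?_ h3
    intro ρ hρ
    rw [Set.mem_finsetProd] at hρ
    obtain ⟨g, hg, rfl⟩ := hρ
    choose a b ha hb hab using fun i => hg (Finset.mem_univ i)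
    have hsum : ∀ l, ∑ i, (if cls i = some l then a i else 0) ≤ n * (L * δ) := by
      intro l
      calc ∑ i, (if cls i = some l then a i else 0) ≤ ∑ _i : Fin n, L * δ := by
            refine Finset.sum_le_sum fun i _ => ?_
            split_ifs
            · exact ha i
            · exact Nat.zero_le _
        _ = n * (L * δ) := by simp
    refine ⟨(fun l => ⟨∑ i, (if cls i = some l then a i else 0), Nat.lt_succ_of_le (hsum l)⟩,
      fun i => ⟨b i, Nat.lt_succ_of_le (hb i)⟩), ?_⟩
    have h4 : ∀ i, u i ^ a i = ∏ l, x (base l) ^ (if cls i = some l then a i else 0) := by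
      intro i
      cases hc : cls i with
      | none =>
        rw [hu0 i hc, one_pow]
        symm
        refine Finset.prod_eq_one fun l _ => ?_
        simp
      | some l =>
        rw [hu i l hc, Finset.prod_eq_single l]
        · simp
        · intro l' _ hl'
          rw [if_neg, pow_zero]
          intro h5
          exact hl' (Option.some.inj h5).symm
        · intro h5
          exact absurd (Finset.mem_univ l) h5
    change (∏ l, x (base l) ^ (∑ i, (if cls i = some l then a i else 0))) * ∏ i, x i ^ b i = _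
    rw [Finset.prod_congr rfl fun i _ => hab i, Finset.prod_mul_distrib,
      Finset.prod_congr rfl fun i _ => h4 i, Finset.prod_comm]
    congr 1
    exact Finset.prod_congr rfl fun l _ => (Finset.prod_pow_eq_pow_sum _ _ _).symm
  have hfin : Module.Finite ℂ (Submodule.span ℂ (Set.range F)) :=
    FiniteDimensional.span_of_finite ℂ (Set.finite_range F)
  refine ⟨Submodule.finiteDimensional_of_le hP, ?_⟩
  refine (Submodule.finrank_mono hP).trans ((finrank_range_le_card F).trans ?_)
  rw [Fintype.card_prod, Fintype.card_fun, Fintype.card_fun, Fintype.card_fin, Fintype.card_fin,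
    Fintype.card_fin, Fintype.card_fin]
  calc (n * (L * δ) + 1) ^ r * (δ + 1) ^ n ≤ ((n + 1) * δ * L) ^ r * (2 * δ) ^ n := by
        refine Nat.mul_le_mul (Nat.pow_le_pow_left ?_ r) (Nat.pow_le_pow_left (by omega) n)
        have : 1 ≤ L * δ := Nat.mul_pos hL hδ
        nlinarith
    _ = BB n r δ * L ^ r := by rw [BB, mul_pow ((n + 1) * δ)]; ring

end Pool.Agent.R870.NY
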